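import Mathlib

/-!
# Unit veto interval graphs which are not midpoint proper veto interval graphs

Every midpoint proper veto interval (MPVI) graph is a unit veto interval (UVI) graph; the converse
fails: an explicit UVI graph with 16 vertices is not an MPVI graph.

* A midpoint proper veto interval graph is 3-colourable: order the intervals from left to right and
  cut them into blocks; the block which starts with the interval `s` consists of the following
  intervals `b` whose centre is not to the right of the right end of `s` or whose left end is not to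
  the right of the centre of `s`. Two intervals of the same block are not adjacent, and neither are
  intervals of blocks whose indices differ by at least three.
* The explicit unit veto interval graph is not 3-colourable.
-/

set_option autoImplicit false

namespace Pool.Agent.Results.MP_230f06_co.UnitNotMidpointProper

/-- A veto interval: the closed interval `[l, r]` with the veto mark `v`, `l < v < r`. -/
@[ext] structure VetoInterval where
  l : ℝ
  v : ℝ
  r : ℝ
  l_lt_v : l < v
  v_lt_r : v < r

/-- The two intervals meet and neither contains the veto mark of the other: `a_v < b_l < a_r < b_v`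
or `b_v < a_l < b_r < a_v`. -/
def VetoAdj (a b : VetoInterval) : Prop :=
  (a.v < b.l ∧ b.l < a.r ∧ a.r < b.v) ∨ (b.v < a.l ∧ a.l < b.r ∧ b.r < a.v)

/-- `f` is a veto interval representation of `G`: a bijection from the vertices to a set of veto
intervals such that distinct vertices are adjacent exactly when their intervals are. -/
def IsRepresentation {V : Type} (G : SimpleGraph V) (f : V → VetoInterval) : Prop :=
  Function.Injective f ∧ ∀ a b : V, a ≠ b → (G.Adj a b ↔ VetoAdj (f a) (f b))

/-- All intervals have the same length. -/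
def IsUnitRep {V : Type} (f : V → VetoInterval) : Prop :=
  ∀ a b : V, (f a).r - (f a).l = (f b).r - (f b).l

/-- No interval properly contains another. -/
def IsProper {V : Type} (f : V → VetoInterval) : Prop :=
  ∀ a b : V, ¬ Set.Icc (f a).l (f a).r ⊂ Set.Icc (f b).l (f b).r

/-- Every veto mark is the midpoint of its interval. -/
def IsMidpoint {V : Type} (f : V → VetoInterval) : Prop :=
  ∀ a : V, (f a).v = ((f a).l + (f a).r) / 2

/-- Unit veto interval graphs. -/
def IsUVI {V : Type} (G : SimpleGraph V) : Prop := ∃ f, IsRepresentation G f ∧ IsUnitRep f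

/-- Midpoint proper veto interval graphs. -/
def IsMPVI {V : Type} (G : SimpleGraph V) : Prop :=
  ∃ f, IsRepresentation G f ∧ IsMidpoint f ∧ IsProper f

/-! ### Midpoint proper veto interval graphs are 3-colourable -/

theorem exists_blocks {V : Type} [DecidableEq V] (l c r : V → ℝ) (S : Finset V) :
    (∀ a ∈ S, ∀ b ∈ S, l a < l b → c a < c b ∧ r a < r b) →
    (∀ a ∈ S, ∀ b ∈ S, l a = l b → a = b) →
    (∀ a ∈ S, l a < c a ∧ c a < r a) →
    ∃ g : V → ℕ,
      (∀ a ∈ S, ∀ b ∈ S, l a < l b → g a ≤ g b) ∧
      (∀ a ∈ S, ∀ b ∈ S, l a < l b → g a = g b → c b ≤ r a ∨ l b ≤ c a) ∧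
      (∀ a ∈ S, ∀ b ∈ S, l a < l b → g a + 3 ≤ g b → r a < l b) ∧
      (∀ s ∈ S, (∀ b ∈ S, l s ≤ l b) →
        (∀ b ∈ S, 1 ≤ g b → r s < c b ∧ c s < l b) ∧ (∀ b ∈ S, 2 ≤ g b → r s < l b)) := by
  classical
  induction S using Finset.strongInduction with
  | H S ih =>
    intro H Hi Hc
    rcases S.eq_empty_or_nonempty with rfl | hne
    · exact ⟨fun _ => 0, by simp, by simp, by simp, by simp⟩
    obtain ⟨s, hs, hmin⟩ := S.exists_min_image l hne
    let S' := S.filter fun b => r s < c b ∧ c s < l b
    have hS' : S' ⊂ S := by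
      refine Finset.filter_ssubset.2 ⟨s, hs, ?_⟩
      intro h
      exact absurd (h.1.trans (Hc s hs).2) (lt_irrefl _)
    have hmem : ∀ {b}, b ∈ S' ↔ b ∈ S ∧ (r s < c b ∧ c s < l b) := by
      intro b
      exact Finset.mem_filter
    obtain ⟨g', g1, g2, g3, g4⟩ := ih S' hS'
      (fun a ha b hb => H a (hmem.1 ha).1 b (hmem.1 hb).1)
      (fun a ha b hb => Hi a (hmem.1 ha).1 b (hmem.1 hb).1)
      (fun a ha => Hc a (hmem.1 ha).1)
    -- elements outside `S'` come before the elements of `S'`
    have hle : ∀ a ∈ S, a ∉ S' → ∀ b ∈ S', l a < l b := by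
      intro a ha haS b hb
      by_contra hcon
      push Not at hcon
      have hb' := hmem.1 hb
      apply haS
      rw [hmem]
      refine ⟨ha, ?_⟩
      rcases hcon.lt_or_eq with h | h
      · exact ⟨hb'.2.1.trans (H b hb'.1 a ha h).1, hb'.2.2.trans h⟩
      · rw [← Hi b hb'.1 a ha h]
        exact hb'.2
    let g : V → ℕ := fun b => if b ∈ S' then g' b + 1 else 0
    have hg1 : ∀ b ∈ S', g b = g' b + 1 := fun b hb => if_pos hb
    have hg0 : ∀ b, b ∉ S' → g b = 0 := fun b hb => if_neg hb
    refine ⟨g, ?_, ?_, ?_, ?_⟩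
    · intro a ha b hb hab
      by_cases haS : a ∈ S'
      · by_cases hbS : b ∈ S'
        · rw [hg1 a haS, hg1 b hbS]
          have := g1 a haS b hbS hab
          omega
        · exact absurd (hle b hb hbS a haS) (not_lt.2 hab.le)
      · rw [hg0 a haS]
        exact Nat.zero_le _
    · intro a ha b hb hab heq
      by_cases haS : a ∈ S'
      · by_cases hbS : b ∈ S'
        · rw [hg1 a haS, hg1 b hbS] at heq
          exact g2 a haS b hbS hab (by omega)
        · exact absurd (hle b hb hbS a haS) (not_lt.2 hab.le)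
      · by_cases hbS : b ∈ S'
        · rw [hg0 a haS, hg1 b hbS] at heq
          omega
        · have h1 : ¬ (r s < c b ∧ c s < l b) := fun h => hbS (hmem.2 ⟨hb, h⟩)
          have hsa : l s ≤ l a := hmin a ha
          have hrc : c s ≤ c a ∧ r s ≤ r a := by
            rcases hsa.lt_or_eq with h | h
            · exact ⟨(H s hs a ha h).1.le, (H s hs a ha h).2.le⟩
            · rw [Hi s hs a ha h]
              exact ⟨le_rfl, le_rfl⟩
          by_cases h2 : r s < c b
          · right
            have h3 : ¬ c s < l b := fun h => h1 ⟨h2, h⟩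
            exact (not_lt.1 h3).trans hrc.1
          · left
            exact (not_lt.1 h2).trans hrc.2
    · intro a ha b hb hab h3
      have hbS : b ∈ S' := by
        by_contra h
        rw [hg0 b h] at h3
        omega
      rw [hg1 b hbS] at h3
      by_cases haS : a ∈ S'
      · rw [hg1 a haS] at h3
        exact g3 a haS b hbS hab (by omega)
      · rw [hg0 a haS] at h3
        obtain ⟨t, ht, htm⟩ := S'.exists_min_image l ⟨b, hbS⟩
        have h4 := (g4 t ht htm).2 b hbS (by omega)
        have h5 := hle a ha haS t ht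
        exact ((H a ha t (hmem.1 ht).1 h5).2).trans h4
    · intro s₁ hs₁ hm₁
      have hss : s₁ = s := Hi s₁ hs₁ s hs (le_antisymm (hm₁ s hs) (hmin s₁ hs₁))
      subst hss
      constructor
      · intro b hb h1
        by_cases hbS : b ∈ S'
        · exact (hmem.1 hbS).2
        · rw [hg0 b hbS] at h1
          omega
      · intro b hb h2
        by_cases hbS : b ∈ S'
        · rw [hg1 b hbS] at h2
          obtain ⟨t, ht, htm⟩ := S'.exists_min_image l ⟨b, hbS⟩
          have h4 := ((g4 t ht htm).1 b hbS (by omega)).2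
          exact (hmem.1 ht).2.1.trans h4
        · rw [hg0 b hbS] at h2
          omega

theorem colorable_mpvi {V : Type} [Finite V] {G : SimpleGraph V} (h : IsMPVI G) :
    G.Colorable 3 := by
  classical
  have := Fintype.ofFinite V
  obtain ⟨f, ⟨hinj, hG⟩, hm, hp⟩ := h
  -- the intervals are ordered
  have hlr : ∀ a, (f a).l ≤ (f a).r := fun a => ((f a).l_lt_v.trans (f a).v_lt_r).le
  have hcon : ∀ a b : V, (f a).l ≤ (f b).l → (f b).r ≤ (f a).r → a = b := by
    intro a b h1 h2
    have h3 : Set.Icc (f b).l (f b).r ⊆ Set.Icc (f a).l (f a).r := Set.Icc_subset_Icc h1 h2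
    have h4 : Set.Icc (f a).l (f a).r ⊆ Set.Icc (f b).l (f b).r := by
      by_contra hcon
      exact hp b a ⟨h3, hcon⟩
    have h5 := (Set.Icc_subset_Icc_iff (hlr a)).1 h4
    apply hinj
    have h6 : (f a).l = (f b).l := le_antisymm h1 h5.1
    have h7 : (f a).r = (f b).r := le_antisymm h5.2 h2
    ext
    · exact h6
    · rw [hm a, hm b, h6, h7]
    · exact h7
  have H : ∀ a b : V, (f a).l < (f b).l → (f a).v < (f b).v ∧ (f a).r < (f b).r := by
    intro a b hab
    have h1 : (f a).r < (f b).r := by
      by_contra h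
      have := hcon a b hab.le (not_lt.1 h)
      rw [this] at hab
      exact lt_irrefl _ hab
    refine ⟨?_, h1⟩
    rw [hm a, hm b]
    linarith
  have Hi : ∀ a b : V, (f a).l = (f b).l → a = b := by
    intro a b hab
    rcases le_total (f a).r (f b).r with h | h
    · exact (hcon b a hab.symm.le h).symm
    · exact hcon a b hab.le h
  obtain ⟨g, g1, g2, g3, -⟩ := exists_blocks (fun a => (f a).l) (fun a => (f a).v)
    (fun a => (f a).r) Finset.univ (fun a _ b _ => H a b) (fun a _ b _ => Hi a b)
    (fun a _ => ⟨(f a).l_lt_v, (f a).v_lt_r⟩)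
  have key : ∀ a b : V, (f a).v < (f b).l → (f b).l < (f a).r → (f a).r < (f b).v →
      g a % 3 ≠ g b % 3 := by
    intro a b h1 h2 h3 he
    have hab : (f a).l < (f b).l := (f a).l_lt_v.trans h1
    have k1 := g1 a (Finset.mem_univ _) b (Finset.mem_univ _) hab
    rcases eq_or_ne (g a) (g b) with h | h
    · rcases g2 a (Finset.mem_univ _) b (Finset.mem_univ _) hab h with h4 | h4
      · exact absurd h3 (not_lt.2 h4)
      · exact absurd h1 (not_lt.2 h4)
    · have k3 := g3 a (Finset.mem_univ _) b (Finset.mem_univ _) hab (by omega)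
      exact absurd h2 (not_lt.2 k3.le)
  refine ⟨SimpleGraph.Coloring.mk (fun a => (⟨g a % 3, Nat.mod_lt _ (by norm_num)⟩ : Fin 3)) ?_⟩
  intro a b hab he
  have he' : g a % 3 = g b % 3 := congrArg Fin.val he
  have hne := hab.ne
  rw [hG a b hne] at hab
  rcases hab with ⟨h1, h2, h3⟩ | ⟨h1, h2, h3⟩
  · exact key a b h1 h2 h3 he'
  · exact key b a h1 h2 h3 he'.symm

/-! ### Graphs from integer data -/

/-- the veto interval `[p, q]` with mark `m` -/
def mkN (t : ℕ × ℕ × ℕ) (h : t.1 < t.2.1 ∧ t.2.1 < t.2.2) : VetoInterval where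
  l := t.1
  v := t.2.1
  r := t.2.2
  l_lt_v := by exact_mod_cast h.1
  v_lt_r := by exact_mod_cast h.2

/-- adjacency for integer data -/
def adjN (s t : ℕ × ℕ × ℕ) : Bool :=
  (decide (s.2.1 < t.1) && decide (t.1 < s.2.2) && decide (s.2.2 < t.2.1)) ||
  (decide (t.2.1 < s.1) && decide (s.1 < t.2.2) && decide (t.2.2 < s.2.1))

theorem adjN_iff {s t : ℕ × ℕ × ℕ} (hs : s.1 < s.2.1 ∧ s.2.1 < s.2.2)
    (ht : t.1 < t.2.1 ∧ t.2.1 < t.2.2) : adjN s t = true ↔ VetoAdj (mkN s hs) (mkN t ht) := by
  simp [adjN, VetoAdj, mkN, and_assoc]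

theorem adjN_irrefl {s : ℕ × ℕ × ℕ} (hs : s.1 < s.2.1 ∧ s.2.1 < s.2.2) : adjN s s = false := by
  have h1 := hs.1
  have h2 := hs.2
  simp only [adjN, Bool.or_eq_false_iff, Bool.and_eq_false_iff, decide_eq_false_iff_not]
  omega

theorem adjN_symm (s t : ℕ × ℕ × ℕ) : adjN s t = adjN t s := by
  unfold adjN
  rw [Bool.or_comm]

/-- the graph of integer data -/
def gr {n : ℕ} (d : Fin n → ℕ × ℕ × ℕ) (hd : ∀ i, (d i).1 < (d i).2.1 ∧ (d i).2.1 < (d i).2.2) :
    SimpleGraph (Fin n) where
  Adj a b := adjN (d a) (d b) = true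
  symm := ⟨fun a b h => by rw [adjN_symm]; exact h⟩
  loopless := ⟨fun a h => by rw [adjN_irrefl (hd a)] at h; exact Bool.false_ne_true h⟩

theorem gr_rep {n : ℕ} (d : Fin n → ℕ × ℕ × ℕ)
    (hd : ∀ i, (d i).1 < (d i).2.1 ∧ (d i).2.1 < (d i).2.2) (hinj : Function.Injective d) :
    IsRepresentation (gr d hd) (fun i => mkN (d i) (hd i)) := by
  constructor
  · intro a b h
    apply hinj
    have h1 := congrArg VetoInterval.l h
    have h2 := congrArg VetoInterval.v h
    have h3 := congrArg VetoInterval.r h
    simp only [mkN] at h1 h2 h3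
    refine Prod.ext (by exact_mod_cast h1) (Prod.ext (by exact_mod_cast h2) (by exact_mod_cast h3))
  · intro a b _
    exact adjN_iff (hd a) (hd b)

/-! ### The search for a proper colouring -/

/-- the colour `c` is compatible with the colours `l` of the vertices `0, 1, …` for the vertex `k` -/
def compat (adj : ℕ → ℕ → Bool) (k c : ℕ) : ℕ → List ℕ → Bool
  | _, [] => true
  | i, x :: xs => !(adj i k && (x == c)) && compat adj k c (i + 1) xs

/-- search for an extension of a colouring by `q` colours -/
def srch (adj : ℕ → ℕ → Bool) (q : ℕ) : ℕ → ℕ → List ℕ → Bool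
  | 0, _, _ => true
  | f + 1, k, l => (List.range q).any fun c => compat adj k c 0 l && srch adj q f (k + 1) (l ++ [c])

theorem compat_true {adj : ℕ → ℕ → Bool} {col : ℕ → ℕ} {k : ℕ} :
    ∀ (m i : ℕ), (∀ j, i ≤ j → j < i + m → adj j k = true → col j ≠ col k) →
      compat adj k (col k) i ((List.range' i m).map col) = true
  | 0, i, _ => rfl
  | m + 1, i, h => by
    rw [List.range'_succ, List.map_cons, compat, Bool.and_eq_true]
    refine ⟨?_, compat_true m (i + 1) fun j h1 h2 => h j (by omega) (by omega)⟩
    rw [Bool.not_eq_true', Bool.and_eq_false_iff]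
    by_cases ha : adj i k = true
    · right
      rw [beq_eq_false_iff_ne]
      exact h i le_rfl (by omega) ha
    · left
      simpa using ha

theorem srch_true {adj : ℕ → ℕ → Bool} {col : ℕ → ℕ} {q n : ℕ} (hq : ∀ i, i < n → col i < q)
    (h : ∀ i j, i < j → j < n → adj i j = true → col i ≠ col j) :
    ∀ (f k : ℕ), k + f ≤ n → srch adj q f k ((List.range k).map col) = true
  | 0, _, _ => rfl
  | f + 1, k, hk => by
    rw [srch, List.any_eq_true]
    refine ⟨col k, List.mem_range.2 (hq k (by omega)), ?_⟩
    rw [Bool.and_eq_true]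
    constructor
    · rw [List.range_eq_range']
      exact compat_true k 0 fun j _ hj ha => h j k (by omega) (by omega) ha
    · have h1 := srch_true hq h f (k + 1) (by omega)
      rw [List.range_succ, List.map_append] at h1
      exact h1

theorem not_colorable {n q : ℕ} (d : Fin n → ℕ × ℕ × ℕ)
    (hd : ∀ i, (d i).1 < (d i).2.1 ∧ (d i).2.1 < (d i).2.2) (D : ℕ → ℕ × ℕ × ℕ)
    (hD : ∀ i : Fin n, D i = d i) (hs : srch (fun i j => adjN (D i) (D j)) q n 0 [] = false) :
    ¬ (gr d hd).Colorable q := by
  rintro ⟨C⟩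
  let col : ℕ → ℕ := fun i => if h : i < n then (C ⟨i, h⟩ : Fin q).val else 0
  have hcol : ∀ i (h : i < n), col i = (C ⟨i, h⟩ : Fin q).val := fun i h => dif_pos h
  have := srch_true (adj := fun i j => adjN (D i) (D j)) (col := col) (q := q) (n := n)
    (fun i hi => by rw [hcol i hi]; exact (C ⟨i, hi⟩).isLt)
    (fun i j hij hj ha => by
      rw [hcol i (hij.trans hj), hcol j hj]
      intro he
      have h1 : C ⟨i, hij.trans hj⟩ = C ⟨j, hj⟩ := Fin.ext he
      have h2 : (gr d hd).Adj ⟨i, hij.trans hj⟩ ⟨j, hj⟩ := by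
        show adjN _ _ = true
        rw [← hD, ← hD]
        exact ha
      exact C.valid h2 h1)
    n 0 (by omega)
  rw [List.range_zero, List.map_nil, hs] at this
  exact Bool.false_ne_true this

/-! ### The examples -/

/-- data of the unit veto interval graph with 16 vertices: `(i, j)` stands for the interval
`[2 i, 2 i + 16]` with mark `2 i + 2 j + 1` -/
def L16 : List (ℕ × ℕ) :=
  [(6, 0), (8, 1), (8, 6), (10, 1), (10, 6), (12, 0), (12, 6), (13, 7), (14, 0), (15, 1), (15, 7),
    (17, 1), (17, 7), (19, 1), (19, 7), (21, 7)]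

def D16 (i : ℕ) : ℕ × ℕ × ℕ :=
  let p := L16.getD i (0, 0)
  (2 * p.1, 2 * p.1 + 2 * p.2 + 1, 2 * p.1 + 16)

def d16 (i : Fin 16) : ℕ × ℕ × ℕ := D16 i

theorem hd16 : ∀ i, (d16 i).1 < (d16 i).2.1 ∧ (d16 i).2.1 < (d16 i).2.2 := by decide

theorem inj16 : Function.Injective d16 := by
  unfold Function.Injective
  decide

theorem uvi16 : IsUVI (gr d16 hd16) := by
  refine ⟨_, gr_rep d16 hd16 inj16, ?_⟩
  intro a b
  simp only [mkN, d16, D16]
  push_cast
  ring

theorem not16 : ¬ (gr d16 hd16).Colorable 3 :=
  not_colorable d16 hd16 D16 (fun _ => rfl) (by decide +kernel)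

/-- The class of midpoint proper veto interval graphs does not contain the class of unit veto interval
graphs: the graph `G` with 16 vertices has a unit representation, but no representation which is
simultaneously midpoint and proper. In fact every MPVI graph is 3-colourable, and `G` is not. -/
theorem result :
    (∀ (n : ℕ) (G : SimpleGraph (Fin n)), IsMPVI G → G.Colorable 3) ∧
    ∃ G : SimpleGraph (Fin 16), IsUVI G ∧ ¬ G.Colorable 3 ∧ ¬ IsMPVI G :=
  ⟨fun _ _ h => colorable_mpvi h,
    gr d16 hd16, uvi16, not16, fun h => not16 (colorable_mpvi h)⟩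

end Pool.Agent.Results.MP_230f06_co.UnitNotMidpointProper
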